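import Pool.Agent.TH90.Cub.Lin

set_option autoImplicit false

open CategoryTheory AlgebraicGeometry Pool.Agent.TH90.Cub

namespace Pool.Agent.Results.MP_81b968_ag.CubicHypersurfaces

variable {F E : Type} [Field F] [Field E]

variable (F E) in
/-- Motivic and `ℓ`-adic Borel-Moore homology of separated schemes `X` of finite type over a finite
field `F`, with coefficients in `E = ℚ_ℓ`:

* `M`: motivic Borel-Moore homology `H_i(X, ℚ(j)) ⊗ ℚ_ℓ`;
* `C`: continuous `ℓ`-adic Borel-Moore homology `H_i(X, ℚ_ℓ(j))` over `F`;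
* `V`: the geometric groups `H_i(X̄, ℚ_ℓ(j))`;
* `reg`: the regulator, `nu`: the Frobenius minus the identity, `rho`: restriction to the algebraic
  closure, `del`: the edge map.

If `X` is smooth of pure dimension `d`, then `H_i(X, (j)) = H^{2d-i}(X, (d-j))`. The group `C` is
the absolute version of `V`: the sequence `V_{i+1} →(nu) V_{i+1} →(del) C_i →(rho) V_i →(nu) V_i` is
exact. -/
structure Theories where
  M : Theory F E
  C : Theory F E
  V : Theory F E
  reg : ∀ i j X, Lin M i j X C i j X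
  nu : ∀ i j X, Lin V i j X V i j X
  rho : ∀ i j X, Lin C i j X V i j X
  del : ∀ i j X, Lin V (i + 1) j X C i j X
  exact_del : ∀ i j X, Ex (nu (i + 1) j X) (del i j X)
  exact_rho : ∀ i j X, Ex (del i j X) (rho i j X)
  exact_nu : ∀ i j X, Ex (rho i j X) (nu i j X)

/-- The cycle class map to the geometric `ℓ`-adic homology. -/
def Theories.cl (T : Theories F E) (i j : ℤ) (X : FSch F) : Lin T.M i j X T.V i j X :=
  (T.reg i j X).then (T.rho i j X)

/-- The product with the canonical class of `H¹(F, ℚ_ℓ)`. -/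
def Theories.eps (T : Theories F E) (i j : ℤ) (X : FSch F) : Lin T.C (i + 1) j X T.C i j X :=
  (T.rho (i + 1) j X).then (T.del i j X)

/-- The statement for `X`: for all `i`, `j` the cycle class map is a bijection onto the invariants of
Frobenius (surjectivity: Tate; injectivity: Beilinson), and the eigenvalue `1` of Frobenius is
semisimple: the map from invariants to coinvariants is injective and surjective. -/
def Theories.Statement (T : Theories F E) (X : FSch F) : Prop :=
  ∀ i j : ℤ, (∀ v, (T.nu i j X).ap v = 0 → ∃ m, (T.cl i j X).ap m = v) ∧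
    (∀ m, (T.cl i j X).ap m = 0 → m = 0) ∧
    (∀ v w, (T.nu i j X).ap v = 0 → (T.nu i j X).ap w = v → v = 0) ∧
    (∀ v, ∃ u w, (T.nu i j X).ap u = 0 ∧ u + (T.nu i j X).ap w = v)

/-- The localisation sequences of `M` and `C` for a closed `Z ⊆ X` with open complement `U`,
compatible with the regulator. -/
structure Localization (T : Theories F E) (Z X U : FSch F) (j : ℤ) where
  M : Seq T.M Z X U j
  C : Seq T.C Z X U j
  regp : ∀ i m, (T.reg i j X).ap ((M.p i).ap m) = (C.p i).ap ((T.reg i j Z).ap m)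
  regr : ∀ i m, (T.reg i j U).ap ((M.r i).ap m) = (C.r i).ap ((T.reg i j X).ap m)
  regb : ∀ i m, (T.reg i j Z).ap ((M.b i).ap m) = (C.b i).ap ((T.reg (i + 1) j U).ap m)

/-- The maps of the localisation sequence commute with `eps`. -/
structure Localization.Eps {T : Theories F E} {Z X U : FSch F} {j : ℤ}
    (L : Localization T Z X U j) : Prop where
  epsp : ∀ i c, (T.eps i j X).ap ((L.C.p (i + 1)).ap c) = (L.C.p i).ap ((T.eps i j Z).ap c)
  epsr : ∀ i c, (T.eps i j U).ap ((L.C.r (i + 1)).ap c) = (L.C.r i).ap ((T.eps i j X).ap c)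
  epsb : ∀ i c, (T.eps i j Z).ap ((L.C.b (i + 1)).ap c) = (L.C.b i).ap ((T.eps (i + 1) j U).ap c)

/-- Isomorphisms for `M` and `C`, compatible with the regulator and with `eps`. -/
structure Shift (T : Theories F E) (X Y : FSch F) (s t : ℤ) where
  a : T.M.Iso X Y s t
  b : T.C.Iso X Y s t
  reg_a : ∀ i j i' j' h h' m, (T.reg i' j' Y).ap ((a i j i' j' h h').ap m) =
    (b i j i' j' h h').ap ((T.reg i j X).ap m)
  eps_b : ∀ i j i' j' h h' h1 c,
    (T.eps i' j' Y).ap ((b (i + 1) j (i' + 1) j' h1 h').ap c) =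
      (b i j i' j' h h').ap ((T.eps i j X).ap c)

/-- The formal properties of the theories: invariance under isomorphisms, vanishing for the empty
scheme, localisation sequences, and homotopy invariance, i.e. the groups of `Spec A[T]` in degree
`(i + 2, j + 1)` are the groups of `Spec A` in degree `(i, j)`. -/
structure Formalism (T : Theories F E) : Prop where
  iso : ∀ {X Y : Scheme.{0}} (e : X ≅ Y) (g : Y ⟶ Spec (CommRingCat.of F)), FT True F g →
    Nonempty (Shift T ⟨X, e.hom ≫ g⟩ ⟨Y, g⟩ 0 0)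
  empty : ∀ (i j : ℤ) (X : FSch F), IsEmpty X.X →
    Subsingleton (T.M.G i j X) ∧ Subsingleton (T.C.G i j X)
  localization : ∀ {Z X U : Scheme.{0}} (f : X ⟶ Spec (CommRingCat.of F)) (i : Z ⟶ X)
    (j : U ⟶ X), FT True F f → IsClosedImmersion i → IsOpenImmersion j →
    Set.range i = (Set.range j)ᶜ → ∀ n,
    ∃ L : Localization T ⟨Z, i ≫ f⟩ ⟨X, f⟩ ⟨U, j ≫ f⟩ n, L.Eps
  homotopy : ∀ (A : Type) [CommRing A] [Algebra F A], Algebra.FiniteType F A →
    Nonempty (Shift T (SpecF A) (SpecF (Polynomial A)) 2 1)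

section Linear

variable (T : Theories F E)

/-- the maps as linear maps -/
def Theories.regL (i j : ℤ) (X : FSch F) : T.M.G i j X →ₗ[E] T.C.G i j X := T.reg i j X

def Theories.nuL (i j : ℤ) (X : FSch F) : T.V.G i j X →ₗ[E] T.V.G i j X := T.nu i j X

def Theories.rhoL (i j : ℤ) (X : FSch F) : T.C.G i j X →ₗ[E] T.V.G i j X := T.rho i j X

def Theories.delL (i j : ℤ) (X : FSch F) : T.V.G (i + 1) j X →ₗ[E] T.C.G i j X := T.del i j X

def Theories.clL (i j : ℤ) (X : FSch F) : T.M.G i j X →ₗ[E] T.V.G i j X :=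
  (T.rhoL i j X).comp (T.regL i j X)

def Theories.epsL (i j : ℤ) (X : FSch F) : T.C.G (i + 1) j X →ₗ[E] T.C.G i j X :=
  (T.delL i j X).comp (T.rhoL (i + 1) j X)

theorem Theories.exDel (i j : ℤ) (X : FSch F) (v : T.V.G (i + 1) j X) :
    T.delL i j X v = 0 ↔ ∃ w, T.nuL (i + 1) j X w = v := T.exact_del i j X v

theorem Theories.exRho (i j : ℤ) (X : FSch F) (c : T.C.G i j X) :
    T.rhoL i j X c = 0 ↔ ∃ v, T.delL i j X v = c := T.exact_rho i j X c

theorem Theories.exNu (i j : ℤ) (X : FSch F) (v : T.V.G i j X) :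
    T.nuL i j X v = 0 ↔ ∃ c, T.rhoL i j X c = v := T.exact_nu i j X v

/-- The combined map `H_i^M ⊕ H_{i+1}^M → H_i` to continuous `ℓ`-adic homology. -/
def Theories.comb (i j : ℤ) (X : FSch F) :
    (T.M.G i j X × T.M.G (i + 1) j X) →ₗ[E] T.C.G i j X :=
  (T.regL i j X).coprod ((T.epsL i j X).comp (T.regL (i + 1) j X))

theorem comb_apply (i j : ℤ) (X : FSch F) (p : T.M.G i j X × T.M.G (i + 1) j X) :
    T.comb i j X p = T.regL i j X p.1 + T.epsL i j X (T.regL (i + 1) j X p.2) := by
  simp [Theories.comb]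

theorem eps_reg (i j : ℤ) (X : FSch F) (m : T.M.G (i + 1) j X) :
    T.epsL i j X (T.regL (i + 1) j X m) = T.delL i j X (T.clL (i + 1) j X m) := rfl

theorem rho_del (i j : ℤ) (X : FSch F) (c : T.V.G (i + 1) j X) :
    T.rhoL i j X (T.delL i j X c) = 0 := (T.exRho i j X _).mpr ⟨_, rfl⟩

theorem rho_eps (i j : ℤ) (X : FSch F) (c : T.C.G (i + 1) j X) :
    T.rhoL i j X (T.epsL i j X c) = 0 := rho_del T i j X _

theorem nu_cl (i j : ℤ) (X : FSch F) (m : T.M.G i j X) :
    T.nuL i j X (T.clL i j X m) = 0 := (T.exNu i j X _).mpr ⟨_, rfl⟩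

theorem statementL (X : FSch F) : T.Statement X ↔
    ∀ i j : ℤ, (∀ v, T.nuL i j X v = 0 → ∃ m, T.clL i j X m = v) ∧
    (∀ m, T.clL i j X m = 0 → m = 0) ∧
    (∀ v w, T.nuL i j X v = 0 → T.nuL i j X w = v → v = 0) ∧
    (∀ v, ∃ u w, T.nuL i j X u = 0 ∧ u + T.nuL i j X w = v) := Iff.rfl

/-- the combined maps are bijective if and only if the statement holds -/
theorem statement_iff (X : FSch F) :
    T.Statement X ↔ ∀ i j, Function.Bijective (T.comb i j X) := by
  rw [statementL]
  constructor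
  · intro h i j
    have h0 := h i j
    have h1 := h (i + 1) j
    constructor
    · rw [injective_iff_map_eq_zero]
      rintro ⟨a, b⟩ hab
      rw [comb_apply] at hab
      have e1 : T.clL i j X a = 0 := by
        have := congrArg (T.rhoL i j X) hab
        rw [map_add, rho_eps, add_zero, map_zero] at this
        exact this
      have ha : a = 0 := h0.2.1 a e1
      subst ha
      rw [map_zero, zero_add, eps_reg] at hab
      obtain ⟨w, hw⟩ := (T.exDel i j X _).mp hab
      have hb : b = 0 := h1.2.1 b (h1.2.2.1 _ w (nu_cl T _ _ _ b) hw)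
      rw [hb]
      rfl
    · intro c
      obtain ⟨a, ha⟩ := h0.1 (T.rhoL i j X c) ((T.exNu i j X _).mpr ⟨c, rfl⟩)
      obtain ⟨v, hv⟩ := (T.exRho i j X (c - T.regL i j X a)).mp (by
        rw [map_sub]
        exact sub_eq_zero.mpr ha.symm)
      obtain ⟨u, w, hu, huw⟩ := h1.2.2.2 v
      obtain ⟨b, hb⟩ := h1.1 u hu
      refine ⟨(a, b), ?_⟩
      rw [comb_apply, eps_reg]
      change T.regL i j X a + T.delL i j X (T.clL (i + 1) j X b) = c
      have e2 : T.delL i j X (T.nuL (i + 1) j X w) = 0 := (T.exDel i j X _).mpr ⟨w, rfl⟩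
      rw [hb]
      rw [← huw, map_add, e2, add_zero] at hv
      rw [hv]
      abel
  · intro h i j
    obtain ⟨n, rfl⟩ : ∃ n : ℤ, i = n + 1 := ⟨i - 1, by ring⟩
    have h0 := h (n + 1) j
    have h1 := h n j
    have hz : ∀ m : T.M.G (n + 1) j X, T.delL n j X (T.clL (n + 1) j X m) = 0 → m = 0 := by
      intro m hm
      have e1 : T.comb n j X (0, m) = 0 := by
        rw [comb_apply, eps_reg]
        change T.regL n j X 0 + T.delL n j X (T.clL (n + 1) j X m) = 0
        rw [hm, map_zero, add_zero]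
      have e2 := h1.1 (e1.trans (map_zero _).symm)
      exact congrArg Prod.snd e2
    have hinj : ∀ m : T.M.G (n + 1) j X, T.clL (n + 1) j X m = 0 → m = 0 := by
      intro m hm
      apply hz
      rw [hm, map_zero]
    have hsurj : ∀ v : T.V.G (n + 1) j X, T.nuL (n + 1) j X v = 0 →
        ∃ m, T.clL (n + 1) j X m = v := by
      intro v hv
      obtain ⟨c, rfl⟩ := (T.exNu _ _ _ v).mp hv
      obtain ⟨⟨a, b⟩, rfl⟩ := h0.2 c
      refine ⟨a, ?_⟩
      rw [comb_apply, map_add, rho_eps, add_zero]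
      rfl
    have hss : ∀ v w : T.V.G (n + 1) j X, T.nuL (n + 1) j X v = 0 →
        T.nuL (n + 1) j X w = v → v = 0 := by
      intro v w hv hw
      obtain ⟨m, rfl⟩ := hsurj v hv
      rw [hz m ((T.exDel n j X _).mpr ⟨w, hw⟩), map_zero]
    refine ⟨hsurj, hinj, hss, ?_⟩
    intro v
    obtain ⟨⟨a, b⟩, hab⟩ := h1.2 (T.delL n j X v)
    rw [comb_apply, eps_reg] at hab
    have e1 : T.clL n j X a = 0 := by
      have h5 := congrArg (T.rhoL n j X) hab
      rw [map_add, rho_del, rho_del, add_zero] at h5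
      exact h5
    have ha : a = 0 := by
      obtain ⟨k, rfl⟩ : ∃ k : ℤ, n = k + 1 := ⟨n - 1, by ring⟩
      have e3 : T.comb k j X (0, a) = 0 := by
        rw [comb_apply, eps_reg]
        change T.regL k j X 0 + T.delL k j X (T.clL (k + 1) j X a) = 0
        rw [e1, map_zero, map_zero, add_zero]
      have e2 := (h k j).1 (e3.trans (map_zero _).symm)
      exact congrArg Prod.snd e2
    subst ha
    change T.regL n j X 0 + T.delL n j X (T.clL (n + 1) j X b) = T.delL n j X v at hab
    rw [map_zero, zero_add] at hab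
    have e4 : T.delL n j X (v - T.clL (n + 1) j X b) = 0 := by
      rw [map_sub, hab, sub_self]
    obtain ⟨w, hw⟩ := (T.exDel _ _ _ _).mp e4
    refine ⟨T.clL (n + 1) j X b, w, nu_cl _ _ _ _ b, ?_⟩
    rw [hw]
    abel

end Linear

variable {T : Theories F E} {Z X U : FSch F} {j : ℤ}

theorem Localization.cp (L : Localization T Z X U j) (hL : L.Eps) (i : ℤ) :
    (L.C.P i).comp (T.comb i j Z) =
      (T.comb i j X).comp ((L.M.P i).prodMap (L.M.P (i + 1))) := by
  refine LinearMap.ext fun ⟨a, b⟩ => ?_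
  have r0 : T.regL i j X (L.M.P i a) = L.C.P i (T.regL i j Z a) := L.regp i a
  have r1 : T.regL (i + 1) j X (L.M.P (i + 1) b) = L.C.P (i + 1) (T.regL (i + 1) j Z b) :=
    L.regp (i + 1) b
  have r2 : T.epsL i j X (L.C.P (i + 1) (T.regL (i + 1) j Z b)) =
      L.C.P i (T.epsL i j Z (T.regL (i + 1) j Z b)) := hL.epsp i _
  change L.C.P i (T.comb i j Z (a, b)) = T.comb i j X (L.M.P i a, L.M.P (i + 1) b)
  rw [comb_apply, comb_apply, map_add, r0, r1, r2]

theorem Localization.cr (L : Localization T Z X U j) (hL : L.Eps) (i : ℤ) :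
    (L.C.R i).comp (T.comb i j X) =
      (T.comb i j U).comp ((L.M.R i).prodMap (L.M.R (i + 1))) := by
  refine LinearMap.ext fun ⟨a, b⟩ => ?_
  have r0 : T.regL i j U (L.M.R i a) = L.C.R i (T.regL i j X a) := L.regr i a
  have r1 : T.regL (i + 1) j U (L.M.R (i + 1) b) = L.C.R (i + 1) (T.regL (i + 1) j X b) :=
    L.regr (i + 1) b
  have r2 : T.epsL i j U (L.C.R (i + 1) (T.regL (i + 1) j X b)) =
      L.C.R i (T.epsL i j X (T.regL (i + 1) j X b)) := hL.epsr i _
  change L.C.R i (T.comb i j X (a, b)) = T.comb i j U (L.M.R i a, L.M.R (i + 1) b)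
  rw [comb_apply, comb_apply, map_add, r0, r1, r2]

theorem Localization.cb (L : Localization T Z X U j) (hL : L.Eps) (i : ℤ) :
    (L.C.B i).comp (T.comb (i + 1) j U) =
      (T.comb i j Z).comp ((L.M.B i).prodMap (L.M.B (i + 1))) := by
  refine LinearMap.ext fun ⟨a, b⟩ => ?_
  have r0 : T.regL i j Z (L.M.B i a) = L.C.B i (T.regL (i + 1) j U a) := L.regb i a
  have r1 : T.regL (i + 1) j Z (L.M.B (i + 1) b) =
      L.C.B (i + 1) (T.regL (i + 1 + 1) j U b) := L.regb (i + 1) b
  have r2 : T.epsL i j Z (L.C.B (i + 1) (T.regL (i + 1 + 1) j U b)) =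
      L.C.B i (T.epsL (i + 1) j U (T.regL (i + 1 + 1) j U b)) := hL.epsb i _
  change L.C.B i (T.comb (i + 1) j U (a, b)) = T.comb i j Z (L.M.B i a, L.M.B (i + 1) b)
  rw [comb_apply, comb_apply, map_add, r0, r1, r2]

theorem Localization.closed (L : Localization T Z X U j) (hL : L.Eps)
    (hX : ∀ i, Function.Bijective (T.comb i j X))
    (hU : ∀ i, Function.Bijective (T.comb i j U)) (i : ℤ) :
    Function.Bijective (T.comb i j Z) :=
  LinearMap.bijective_of_surjective_of_bijective_of_bijective_of_injective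
    ((L.M.R (i + 1)).prodMap (L.M.R (i + 1 + 1))) ((L.M.B i).prodMap (L.M.B (i + 1)))
    ((L.M.P i).prodMap (L.M.P (i + 1))) ((L.M.R i).prodMap (L.M.R (i + 1)))
    (L.C.R (i + 1)) (L.C.B i) (L.C.P i) (L.C.R i)
    (T.comb (i + 1) j X) (T.comb (i + 1) j U) (T.comb i j Z) (T.comb i j X) (T.comb i j U)
    (L.cr hL (i + 1)) (L.cb hL i) (L.cp hL i) (L.cr hL i)
    (exact_prod _ _ _ _ (L.M.e1 i) (L.M.e1 (i + 1)))
    (exact_prod _ _ _ _ (L.M.e2 i) (L.M.e2 (i + 1)))
    (exact_prod _ _ _ _ (L.M.e3 i) (L.M.e3 (i + 1)))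
    (L.C.e1 i) (L.C.e2 i) (L.C.e3 i)
    (hX (i + 1)).2 (hU (i + 1)) (hX i) (hU i).1

theorem Localization.total (L : Localization T Z X U j) (hL : L.Eps)
    (hZ : ∀ i, Function.Bijective (T.comb i j Z))
    (hU : ∀ i, Function.Bijective (T.comb i j U)) (i : ℤ) :
    Function.Bijective (T.comb i j X) := by
  obtain ⟨i, rfl⟩ : ∃ n : ℤ, i = n + 1 := ⟨i - 1, by ring⟩
  exact LinearMap.bijective_of_surjective_of_bijective_of_bijective_of_injective
    ((L.M.B (i + 1)).prodMap (L.M.B (i + 1 + 1))) ((L.M.P (i + 1)).prodMap (L.M.P (i + 1 + 1)))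
    ((L.M.R (i + 1)).prodMap (L.M.R (i + 1 + 1))) ((L.M.B i).prodMap (L.M.B (i + 1)))
    (L.C.B (i + 1)) (L.C.P (i + 1)) (L.C.R (i + 1)) (L.C.B i)
    (T.comb (i + 1 + 1) j U) (T.comb (i + 1) j Z) (T.comb (i + 1) j X)
    (T.comb (i + 1) j U) (T.comb i j Z)
    (L.cb hL (i + 1)) (L.cp hL (i + 1)) (L.cr hL (i + 1)) (L.cb hL i)
    (exact_prod _ _ _ _ (L.M.e2 (i + 1)) (L.M.e2 (i + 1 + 1)))
    (exact_prod _ _ _ _ (L.M.e3 (i + 1)) (L.M.e3 (i + 1 + 1)))
    (exact_prod _ _ _ _ (L.M.e1 i) (L.M.e1 (i + 1)))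
    (L.C.e2 (i + 1)) (L.C.e3 (i + 1)) (L.C.e1 i)
    (hU (i + 1 + 1)).2 (hZ (i + 1)) (hU (i + 1)) (hZ i).1

theorem Shift.comb {X Y : FSch F} {s t : ℤ} (S : Shift T X Y s t) :
    (∀ i j, Function.Bijective (T.comb i j X)) ↔ ∀ i j, Function.Bijective (T.comb i j Y) := by
  have key : ∀ i j i' j' (h : i' = i + s) (h' : j' = j + t),
      (Function.Bijective (T.comb i j X) ↔ Function.Bijective (T.comb i' j' Y)) := by
    intro i j i' j' h h'
    have h1 : i' + 1 = i + 1 + s := by rw [h]; ring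
    let a0 : T.M.G i j X ≃ₗ[E] T.M.G i' j' Y := S.a i j i' j' h h'
    let a1 : T.M.G (i + 1) j X ≃ₗ[E] T.M.G (i' + 1) j' Y := S.a (i + 1) j (i' + 1) j' h1 h'
    let b0 : T.C.G i j X ≃ₗ[E] T.C.G i' j' Y := S.b i j i' j' h h'
    let b1 : T.C.G (i + 1) j X ≃ₗ[E] T.C.G (i' + 1) j' Y := S.b (i + 1) j (i' + 1) j' h1 h'
    have r0 : ∀ m, T.regL i' j' Y (a0 m) = b0 (T.regL i j X m) := S.reg_a i j i' j' h h'
    have r1 : ∀ m, T.regL (i' + 1) j' Y (a1 m) = b1 (T.regL (i + 1) j X m) :=
      S.reg_a (i + 1) j (i' + 1) j' h1 h'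
    have r2 : ∀ c, T.epsL i' j' Y (b1 c) = b0 (T.epsL i j X c) := S.eps_b i j i' j' h h' h1
    have hc : ∀ p : T.M.G i j X × T.M.G (i + 1) j X,
        T.comb i' j' Y (a0.prodCongr a1 p) = b0 (T.comb i j X p) := by
      rintro ⟨a, b⟩
      change T.comb i' j' Y (a0 a, a1 b) = _
      rw [comb_apply, comb_apply, map_add, r0, r1, r2]
    have hfun : (T.comb i' j' Y) ∘ (a0.prodCongr a1) = b0 ∘ (T.comb i j X) := funext hc
    constructor
    · intro hb
      have h2 : Function.Bijective ((T.comb i' j' Y) ∘ (a0.prodCongr a1)) := by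
        rw [hfun]
        exact b0.bijective.comp hb
      exact (Function.Bijective.of_comp_iff _ (a0.prodCongr a1).bijective).mp h2
    · intro hb
      have h2 : Function.Bijective (b0 ∘ (T.comb i j X)) := by
        rw [← hfun]
        exact hb.comp (a0.prodCongr a1).bijective
      exact (Function.Bijective.of_comp_iff' b0.bijective _).mp h2
  constructor
  · intro h i' j'
    exact (key (i' - s) (j' - t) i' j' (by ring) (by ring)).mp (h _ _)
  · intro h i j
    exact (key i j (i + s) (j + t) rfl rfl).mpr (h _ _)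

/-- Let `K ⊆ F` generate the ring `F`, `1 ∈ K` (if `F` is a prime field, `K = {1}` will do). The
statement (Tate, Beilinson and semisimplicity of the eigenvalue `1` of Frobenius, in all degrees and
twists) holds for all smooth separated schemes of finite type over `F` if and only if it holds for
all separated schemes of finite type over `F`, and if and only if it holds for the smooth
hypersurfaces `g_0 t_0 + ⋯ + g_r t_r = 1` of degree at most three in affine spaces over `F`, where
each `g_i` is of the form `x_a x_b - x_c`, `x_a + x_b - x_c` or `x_a - c`, `c ∈ K`. -/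
theorem result (T : Theories F E) (hT : Formalism T) (K : Set F)
    (hK : Subring.closure K = ⊤) (h1 : (1 : F) ∈ K) :
    ((∀ (X : Scheme.{0}) (f : X ⟶ Spec (CommRingCat.of F)), FT True F f → Smooth f →
        T.Statement ⟨X, f⟩) ↔
      (∀ (n r : ℕ) (g : Fin (r + 1) → MvPolynomial (Fin n) F), (∀ i, IsGate K (g i)) →
        T.Statement (SpecF (Cubic g)))) ∧
    ((∀ (X : Scheme.{0}) (f : X ⟶ Spec (CommRingCat.of F)), FT True F f → T.Statement ⟨X, f⟩) ↔
      (∀ (n r : ℕ) (g : Fin (r + 1) → MvPolynomial (Fin n) F), (∀ i, IsGate K (g i)) →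
        T.Statement (SpecF (Cubic g)))) ∧
    (∀ (n r : ℕ) (g : Fin (r + 1) → MvPolynomial (Fin n) F), Smooth (str F (Cubic g))) := by
  have hsm : ∀ (n r : ℕ) (g : Fin (r + 1) → MvPolynomial (Fin n) F), Smooth (str F (Cubic g)) := by
    intro n r g
    have := smooth_mv F n
    exact hyp_smooth_scheme F _ g
  have hfin : ∀ (n r : ℕ) (g : Fin (r + 1) → MvPolynomial (Fin n) F),
      FT True F (str F (Cubic g)) := fun n r g => ft_hyp g
  have hall : (∀ (n r : ℕ) (g : Fin (r + 1) → MvPolynomial (Fin n) F), (∀ i, IsGate K (g i)) →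
        T.Statement (SpecF (Cubic g))) →
      (∀ (X : Scheme.{0}) (f : X ⟶ Spec (CommRingCat.of F)), FT True F f → T.Statement ⟨X, f⟩) := by
    intro h X f hf
    let P : ∀ X : Scheme.{0}, (X ⟶ Spec (CommRingCat.of F)) → Prop :=
      fun X f => ∀ i j, Function.Bijective (T.comb i j ⟨X, f⟩)
    have hP : IsDevissage True F P :=
      { iso := by
          intro X Y e g hg hX
          obtain ⟨S⟩ := hT.iso e g hg
          exact S.comb.mp hX
        empty := by
          intro X f hX i j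
          have h3 := (hT.empty i j ⟨X, f⟩ hX).1
          have h4 := (hT.empty (i + 1) j ⟨X, f⟩ hX).1
          have h5 := (hT.empty i j ⟨X, f⟩ hX).2
          exact ⟨fun a b _ => Subsingleton.elim a b, fun c => ⟨0, Subsingleton.elim _ _⟩⟩
        closed := by
          intro Z X U f i j hf hi hj hr hX hU m n
          obtain ⟨L, hL⟩ := hT.localization f i j hf hi hj hr n
          exact L.closed hL (fun m => hX m n) (fun m => hU m n) m
        total := by
          intro Z X U f i j hf hi hj hr hZ hU m n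
          obtain ⟨L, hL⟩ := hT.localization f i j hf hi hj hr n
          exact L.total hL (fun m => hZ m n) (fun m => hU m n) m }
    have hA1 : A1 P := by
      intro A _ _ hA
      obtain ⟨S⟩ := hT.homotopy A hA
      exact S.comb
    exact (statement_iff T ⟨X, f⟩).mpr (all_of_cubics hK h1 hP hA1
      (fun n r g hg => (statement_iff T _).mp (h n r g hg)) f hf)
  exact ⟨⟨fun h n r g _ => h _ (str F (Cubic g)) (hfin n r g) (hsm n r g), fun h X f hf _ => hall h X f hf⟩,
    ⟨fun h n r g _ => h _ (str F (Cubic g)) (hfin n r g), hall⟩, hsm⟩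

end Pool.Agent.Results.MP_81b968_ag.CubicHypersurfaces
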