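import Pool.Agent.TH943.TP.Op

/-!
The Tate conjecture for higher Chow groups, in all degrees and weights, for the products of smooth varieties with
explicit smooth affine cyclic coverings: reduction to the products with linear varieties.
-/

set_option autoImplicit false
set_option maxHeartbeats 1000000

open Polynomial TensorProduct

namespace Pool.Agent.Results.MP_81b968_ag.OpenCyclicCoverings

section defs

variable {κ : Type} [Field κ]

/-- The composition `f(h_n(... h_1(x)))`; here `h_1` is `h 0`. -/
noncomputable def composite : (n : ℕ) → (Fin n → κ[X]) → κ[X] → κ[X]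
  | 0, _, f => f
  | n + 1, h, f => (composite n (fun i => h i.succ) f).comp (h 0)

/-- The value of the function `f(x_n) ^ c ∏ (x_i - h_i(x_(i-1))) ^ b_i`, product over `i = 1, ..., n`,
at the point `x = (x_0, ..., x_n)` of the affine space of dimension `n + 1` over `L`. -/
noncomputable def value {n : ℕ} (L : Type) [Field L] [Algebra κ L] (h : Fin n → κ[X]) (f : κ[X])
    (b : Fin n → ℕ) (c : ℕ) (x : Fin (n + 1) → L) : L :=
  (aeval (x (Fin.last n)) f) ^ c * ∏ i : Fin n, (x i.succ - aeval (x i.castSucc) (h i)) ^ b i

/-- The number of points over `L` of the open set `U` of affine space where the function is not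
zero. -/
noncomputable def openCount {n : ℕ} (L : Type) [Field L] [Algebra κ L] (h : Fin n → κ[X])
    (f : κ[X]) (b : Fin n → ℕ) (c : ℕ) : ℕ :=
  Set.ncard {x : Fin (n + 1) → L | value L h f b c x ≠ 0}

/-- The number of points over `L` of `U` where the power of the function with exponent
`(|L| - 1) / N` is `z ^ i`. -/
noncomputable def fixCount {n : ℕ} (L : Type) [Field L] [Fintype L] [Algebra κ L]
    (h : Fin n → κ[X]) (f : κ[X]) (b : Fin n → ℕ) (c N : ℕ) (z : κ) (i : ℕ) : ℕ :=
  Set.ncard {x : Fin (n + 1) → L | value L h f b c x ≠ 0 ∧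
    (value L h f b c x) ^ ((Fintype.card L - 1) / N) = algebraMap κ L z ^ i}

/-- The data of a covering: a number `n`, polynomials `h_1, ..., h_(n+1)` (`h_1` is `h 0`) and `f`, and
exponents. -/
structure Datum (κ : Type) [Field κ] : Type where
  n : ℕ
  h : Fin (n + 1) → κ[X]
  f : κ[X]
  b : Fin (n + 1) → ℕ
  c : ℕ

/-- The degree of the whole composition. -/
noncomputable def Datum.M (D : Datum κ) : ℕ := (composite (D.n + 1) D.h D.f).natDegree

/-- The degree of the composition without `h_1`. -/
noncomputable def Datum.K (D : Datum κ) : ℕ := (composite D.n (fun i => D.h i.succ) D.f).natDegree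

/-- The degree of `h_1`. -/
noncomputable def Datum.m (D : Datum κ) : ℕ := (D.h 0).natDegree

/-- The dimension of the covering. -/
def Datum.dim (D : Datum κ) : ℕ := D.n + 2

/-- The composition of all the polynomials is irreducible, its degree is not divisible by `p`, the
degrees of the `h_i` are not divisible by the characteristic of `κ`, and the exponents are not
divisible by `p`. -/
structure IsAdmissible (p : ℕ) (D : Datum κ) : Prop where
  irreducible : Irreducible (composite (D.n + 1) D.h D.f)
  degree : ¬ p ∣ D.M
  tame : ∀ i, ((D.h i).natDegree : κ) ≠ 0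
  exponents : ∀ i, ¬ p ∣ D.b i
  exponent : ¬ p ∣ D.c

end defs

section cohomology

variable {E : Type} [Field E]

/-- A space with an endomorphism, the Frobenius: for instance the cohomology with compact supports, in
one degree or in all degrees, of a variety. -/
structure Space (E : Type) [Field E] : Type 1 where
  V : Type
  [group : AddCommGroup V]
  [module : Module E V]
  [finite : FiniteDimensional E V]
  Ψ : Module.End E V

attribute [instance] Space.group Space.module Space.finite

/-- The cohomology with compact supports, of all degrees, of a covering `𝒴` of `U`, in two parts: `H`,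
the cohomology with compact supports of `U`, and `W`, on which the group of the covering acts by
nontrivial characters, with a generator `g` of the group. -/
structure Covering (E : Type) [Field E] : Type 1 where
  H : Space E
  W : Space E
  g : Module.End E W.V

/-- The whole cohomology with compact supports of `𝒴`, the sum of the two parts. -/
def Covering.total (C : Covering E) : Space E where
  V := C.H.V × C.W.V
  Ψ := C.H.Ψ.prodMap C.W.Ψ

/-- `H`, `W` and `g` belong to the étale covering `𝒴` of `U`. On `H`, the cohomology with compact supports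
of the linear variety `U`, the Frobenius is semisimple and its eigenvalues are powers of the number of
elements of `κ` times roots of unity of orders dividing the degree of the composition. For `W`:
trace formula for the compositions of Frobenius and powers of `g` (on `𝒴` they have `p ^ s` times
`fixCount` fixed points, and the trace on `H`, with signs, is the number of points of `U`), and the
dimensions of the eigenspaces of `g`, the Euler characteristic of `U` up to the sign. -/
structure IsCohomology {κ : Type} [Field κ] [Fintype κ] (p s : ℕ) (z : κ) (D : Datum κ)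
    (H W : Space E) (g : Module.End E W.V) : Prop where
  semisimple : H.Ψ.IsSemisimple
  linear : ∀ (β : E) (v : H.V), v ≠ 0 → H.Ψ v = β • v →
    ∃ (a : ℕ) (ζ : E), ζ ^ D.M = 1 ∧ β = (Fintype.card κ : E) ^ a * ζ
  commute : Commute W.Ψ g
  order : g ^ p ^ s = 1
  invariants : ∀ w, g w = w → w = 0
  lefschetz : ∀ (L : Type) [Field L] [Fintype L] [Algebra κ L] (i : ℕ),
    (openCount L D.h D.f D.b D.c : E) +
        (-1) ^ D.dim * LinearMap.trace E W.V (W.Ψ ^ Module.finrank κ L * g ^ i) =
      (p : E) ^ s * (fixCount L D.h D.f D.b D.c (p ^ s) z i : E)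
  dimension : ∀ ω : E, ω ≠ 1 → ω ^ p ^ s = 1 → Module.finrank E (g.eigenspace ω) + D.K = D.M

/-- Every eigenvalue is an algebraic integer, which is mapped to a root of unity of order dividing `e`
by all homomorphisms from the ring of algebraic integers to fields of characteristic `p`. -/
def HasOrder (p e : ℕ) (Z : Space E) : Prop :=
  ∀ (β : E) (w : Z.V), w ≠ 0 → Z.Ψ w = β • w → ∃ x : (integralClosure ℤ E).toSubring,
    (x : E) = β ∧ ∀ (k : Type) [Field k] [CharP k p]
      (θ : (integralClosure ℤ E).toSubring →+* k), θ x ^ e = 1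

/-- The tensor product of the `A i`: the cohomology of a product of varieties (Künneth formula). -/
def Factors {ι : Type} (A : ι → Space E) : Type := ⨂[E] i, (A i).V

noncomputable instance {ι : Type} (A : ι → Space E) : AddCommGroup (Factors A) :=
  inferInstanceAs (AddCommGroup (⨂[E] i, (A i).V))

noncomputable instance {ι : Type} (A : ι → Space E) : Module E (Factors A) :=
  inferInstanceAs (Module E (⨂[E] i, (A i).V))

/-- The Frobenius on it. -/
noncomputable def factorsFrobenius {ι : Type} (A : ι → Space E) : Module.End E (Factors A) :=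
  PiTensorProduct.map fun i => (A i).Ψ

/-- The tensor product of `Z` and of the `A i`. -/
def Product (Z : Space E) {ι : Type} (A : ι → Space E) : Type := Z.V ⊗[E] Factors A

noncomputable instance (Z : Space E) {ι : Type} (A : ι → Space E) :
    AddCommGroup (Product Z A) :=
  inferInstanceAs (AddCommGroup (Z.V ⊗[E] Factors A))

noncomputable instance (Z : Space E) {ι : Type} (A : ι → Space E) : Module E (Product Z A) :=
  inferInstanceAs (Module E (Z.V ⊗[E] Factors A))

/-- The Frobenius on it. -/
noncomputable def frobenius (Z : Space E) {ι : Type} (A : ι → Space E) :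
    Module.End E (Product Z A) :=
  TensorProduct.map Z.Ψ (factorsFrobenius A)

/-- The generalized eigenspace of the `r`-th power of Frobenius for the eigenvalue `q ^ (r j)`. -/
noncomputable def part (q : ℕ) (Z : Space E) {ι : Type} (A : ι → Space E) (r : ℕ) (j : ℤ) :
    Submodule E (Product Z A) :=
  (frobenius Z A ^ r).maxGenEigenspace ((q : E) ^ ((r : ℤ) * j))

/-- The eigenvalue `q ^ (r j)` of the `r`-th power of Frobenius is semisimple. -/
def IsSemisimpleAt (q : ℕ) (Z : Space E) {ι : Type} (A : ι → Space E) (r : ℕ) (j : ℤ) : Prop :=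
  ∀ x ∈ part q Z A r j, (frobenius Z A ^ r) x = ((q : E) ^ ((r : ℤ) * j)) • x

/-- The pull-back from the product of the `U_i` to the product of the `𝒴_i`. -/
noncomputable def factorsPullback {ι : Type} (C : ι → Covering E) :
    Factors (fun i => (C i).H) →ₗ[E] Factors (fun i => (C i).total) :=
  PiTensorProduct.map fun i => (LinearMap.inl E (C i).H.V (C i).W.V)

/-- The pull-back from the product of `Z` and the `U_i` to the product of `Z` and the `𝒴_i`. -/
noncomputable def pullback (Z : Space E) {ι : Type} (C : ι → Covering E) :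
    Product Z (fun i => (C i).H) →ₗ[E] Product Z (fun i => (C i).total) :=
  LinearMap.lTensor Z.V (factorsPullback C)

theorem composite_eq {κ : Type} [Field κ] (n : ℕ) : ∀ (h : Fin n → κ[X]) (f : κ[X]),
    composite n h f = Pool.Agent.TH943.IP.cmp n h f := by
  induction n with
  | zero => intro h f; rfl
  | succ n ih =>
    intro h f
    show (composite n (fun i => h i.succ) f).comp (h 0) = _
    rw [ih]
    rfl

/-- eigenvectors of the whole cohomology -/
def gn (C : Covering E) (a : TH943.TP.EV C.H.Ψ ⊕ TH943.TP.EV C.W.Ψ) : C.total.V :=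
  TH943.TP.gr C.H.Ψ C.W.Ψ a

theorem gn_val (C : Covering E) (a : TH943.TP.EV C.H.Ψ ⊕ TH943.TP.EV C.W.Ψ) :
    C.total.Ψ (gn C a) = TH943.TP.vl C.H.Ψ C.W.Ψ a • gn C a :=
  TH943.TP.gr_val C.H.Ψ C.W.Ψ a

theorem gn_span [IsAlgClosed E] (C : Covering E) (hΨ : C.H.Ψ.IsSemisimple)
    (hΦ : C.W.Ψ.IsSemisimple) : Submodule.span E (Set.range (gn C)) = ⊤ :=
  TH943.TP.gr_span C.H.Ψ C.W.Ψ hΨ hΦ

/-- the products of eigenvectors -/
noncomputable def gnT {ι : Type} (C : ι → Covering E)
    (a : ∀ i, TH943.TP.EV (C i).H.Ψ ⊕ TH943.TP.EV (C i).W.Ψ) : Factors fun i => (C i).total :=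
  PiTensorProduct.tprod E (s := fun i => (C i).total.V) fun i => gn (C i) (a i)

theorem gnT_val {ι : Type} [Fintype ι] (C : ι → Covering E)
    (a : ∀ i, TH943.TP.EV (C i).H.Ψ ⊕ TH943.TP.EV (C i).W.Ψ) :
    factorsFrobenius (fun i => (C i).total) (gnT C a) =
      (∏ i, TH943.TP.vl (C i).H.Ψ (C i).W.Ψ (a i)) • gnT C a := by
  have h1 : factorsFrobenius (fun i => (C i).total) (gnT C a) =
      PiTensorProduct.tprod E (s := fun i => (C i).total.V)
        (fun i => (C i).total.Ψ (gn (C i) (a i))) :=
    PiTensorProduct.map_tprod _ _
  have h2 : (fun i => (C i).total.Ψ (gn (C i) (a i))) =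
      fun i => (TH943.TP.vl (C i).H.Ψ (C i).W.Ψ (a i) • gn (C i) (a i)) :=
    funext fun i => gn_val (C i) (a i)
  rw [h1, h2]
  exact (PiTensorProduct.tprod E (s := fun i => (C i).total.V)).map_smul_univ
    (fun i => TH943.TP.vl (C i).H.Ψ (C i).W.Ψ (a i)) (fun i => gn (C i) (a i))

theorem gnT_span [IsAlgClosed E] {ι : Type} [Fintype ι] (C : ι → Covering E)
    (hΨ : ∀ i, (C i).H.Ψ.IsSemisimple) (hΦ : ∀ i, (C i).W.Ψ.IsSemisimple) :
    Submodule.span E (Set.range (gnT C)) = ⊤ := by
  have h := PiTensorProduct.submodule_span_eq_top (R := E) (M := fun i => (C i).total.V)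
    (g := fun i => gn (C i)) (fun i => gn_span (C i) (hΨ i) (hΦ i))
  exact h

/-- the products of eigenvectors of the bases -/
noncomputable def bsT {ι : Type} (C : ι → Covering E)
    (a : ∀ i, TH943.TP.EV (C i).H.Ψ) : Factors fun i => (C i).H :=
  PiTensorProduct.tprod E (s := fun i => (C i).H.V) fun i => (a i).1.2

theorem bsT_val {ι : Type} [Fintype ι] (C : ι → Covering E)
    (a : ∀ i, TH943.TP.EV (C i).H.Ψ) :
    factorsFrobenius (fun i => (C i).H) (bsT C a) = (∏ i, (a i).1.1) • bsT C a := by
  have h1 : factorsFrobenius (fun i => (C i).H) (bsT C a) =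
      PiTensorProduct.tprod E (s := fun i => (C i).H.V) (fun i => (C i).H.Ψ (a i).1.2) :=
    PiTensorProduct.map_tprod _ _
  have h2 : (fun i => (C i).H.Ψ (a i).1.2) = fun i => ((a i).1.1 • (a i).1.2) :=
    funext fun i => (a i).2.2
  rw [h1, h2]
  exact (PiTensorProduct.tprod E (s := fun i => (C i).H.V)).map_smul_univ
    (fun i => (a i).1.1) (fun i => (a i).1.2)

theorem bsT_span [IsAlgClosed E] {ι : Type} [Fintype ι] (C : ι → Covering E)
    (hΨ : ∀ i, (C i).H.Ψ.IsSemisimple) :
    Submodule.span E (Set.range (bsT C)) = ⊤ := by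
  have h := PiTensorProduct.submodule_span_eq_top (R := E) (M := fun i => (C i).H.V)
    (g := fun i => fun x : TH943.TP.EV (C i).H.Ψ => x.1.2)
    (fun i => TH943.TP.span_ev (C i).H.Ψ (hΨ i))
  exact h

theorem pull_bsT {ι : Type} (C : ι → Covering E)
    (a : ∀ i, TH943.TP.EV (C i).H.Ψ) :
    factorsPullback C (bsT C a) = gnT C fun i => Sum.inl (a i) := by
  have h1 : factorsPullback C (bsT C a) =
      PiTensorProduct.tprod E (s := fun i => (C i).total.V)
        (fun i => (LinearMap.inl E (C i).H.V (C i).W.V) (a i).1.2) :=
    PiTensorProduct.map_tprod _ _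
  have h2 : (fun i => ((LinearMap.inl E (C i).H.V (C i).W.V) (a i).1.2 : (C i).total.V)) =
      fun i => gn (C i) (Sum.inl (a i)) := rfl
  rw [h1]
  exact congrArg (PiTensorProduct.tprod E (s := fun i => (C i).total.V)) h2

end cohomology

/-- **The Tate conjecture for higher Chow groups for products with explicit cyclic coverings.**

Let `p` be a prime and `κ` a finite field with `q` elements which contains a primitive root of unity
`z` of order `p ^ s`, `s ≥ 1`. For every `i` in a finite set let `f_i` and `h_(i,1), ..., h_(i,n+1)`,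
`n = n_i ≥ 0`, be polynomials over `κ` such that `f_i(h_(i,n+1)(... h_(i,1)(x)))` is irreducible of
degree `M_i` prime to `p`, the degrees of the `h_(i,j)` are prime to the characteristic, and `c_i`,
`b_(i,j)` positive integers prime to `p`. Let `N_i = n_i + 2 ≥ 2`, let `U_i` be the open set of the
affine space of dimension `N_i` with coordinates `x_0, ..., x_(n+1)` given by `G_i ≠ 0`,
`G_i = f_i(x_(n+1)) ^ (c_i) ∏ (x_j - h_(i,j)(x_(j-1))) ^ (b_(i,j))`, and `𝒴_i` the smooth affine variety
`v ^ (p ^ s) = G_i`, `G_i ≠ 0`, an étale covering of `U_i`, geometrically irreducible. Assume that for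
`i ≠ j` the degree of `h_(i,1)` is prime to `M_j`. Let `ℓ` be a prime prime to `q` and `E` an algebraic
closure of the field of `ℓ`-adic numbers.

Facts about `𝒴_i` (`IsCohomology`). Its cohomology with compact supports is the sum of that of `U_i` and
of the `H^j_c(U_i, L_χ)`, `χ` the nontrivial characters of order dividing `p ^ s`, and these are zero for
`j ≠ N_i` (as `U_i` is affine and smooth, and by integration over `x_0, x_1, ...`: no coinvariants for
the inertia at infinity). The variety `U_i` is linear: it is the complement in the product of a line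
and of punctured lines (coordinates `x_0` and the `x_j - h_(i,j)(x_(j-1))`) of `f_i(x_(n+1)) = 0`, which is
a variety of the same kind, with one `h` less and with `f` replaced by `h_(i,n+1) - α`, over the
field generated by a root `α` of `f_i`. So the motive of `U_i` with rational coefficients is a sum of
shifts of twists of Artin motives, split by the fields of degree dividing `M_i` (there are no
extensions, by Quillen's theorem on the K-theory of finite fields); so Frobenius is semisimple on the
cohomology of `U_i`, with the eigenvalues `q ^ a ζ`, `ζ ^ (M_i) = 1`.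

Let now `Z` be ANY smooth variety over `κ`, and `Z n` its cohomology with compact supports in degree
`n`. The eigenvalues of Frobenius are algebraic integers dividing a power of `q` (Deligne), so that
their reductions in characteristic `p` are roots of unity of orders prime to `p`; let `e` be a common
multiple of these orders (`HasOrder`; there is such an `e`; for a point `e = 1`), and assume that the
degrees of the `h_(i,1)` are prime to `e`. Let `r` be prime to the degrees of the `h_(i,1)`, `κ_r` the
extension of `κ` of degree `r`.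

Theorem. For all `n` and all integers `j` the pull-back from `Z × ∏ U_i` to `Z × ∏ 𝒴_i` is an
isomorphism of the generalized eigenspaces of the Frobenius over `κ_r` for the eigenvalue `q ^ (r j)`
in the tensor products of `H_c^n(Z)` and the cohomology with compact supports of `∏ U_i` and `∏ 𝒴_i`
(it is injective, as the `H` are summands of the whole cohomologies). If Frobenius is semisimple on
`H_c^n(Z)`, then these eigenvalues are semisimple on the tensor product.

Consequences for the question. By the Künneth formula and Poincaré duality, for all `i` and `j` the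
pull-back from `V^(i,j)(Z × ∏ U_i)` to `V^(i,j)(Z × ∏ 𝒴_i)` is bijective over `κ_r` (the push-forward is, by
the theorem, on the generalized invariants, and the composition is a multiplication by the degree),
so that `c^(i,j)` is surjective for all `i`, `j` for `Z × ∏ 𝒴_i` over `κ_r` if and only if it is for
`Z × ∏ U_i`. As the motive of `∏ U_i` is a sum of shifts of twists of Artin motives, this holds if `Z` is
a point: Q1 holds for the smooth affine varieties `∏ 𝒴_i` over `κ_r`, for all `i` and `j`; and it holds
for `Z × ∏ 𝒴_i` over `κ_r` if Q1 holds for `Z` over all finite extensions, for instance for the varieties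
`Z` to which the theorems of Soulé, Geisser and Kahn apply. The Betti numbers of `𝒴_i` in degree `N_i`
are not bounded. -/
theorem result (p s : ℕ) (hp : p.Prime) (hs : 1 ≤ s) (κ : Type) [Field κ] [Fintype κ] (z : κ)
    (hz : IsPrimitiveRoot z (p ^ s)) (ι : Type) [Fintype ι] (D : ι → Datum κ)
    (hadm : ∀ i, IsAdmissible p (D i)) (hcop : ∀ i j, i ≠ j → Nat.Coprime (D i).m (D j).M)
    (E : Type) [Field E] [CharZero E] [IsAlgClosed E] (C : ι → Covering E)
    (hC : ∀ i, IsCohomology p s z (D i) (C i).H (C i).W (C i).g) (Z : ℕ → Space E) (e : ℕ)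
    (hZ : ∀ n, HasOrder p e (Z n)) (he : ∀ i, Nat.Coprime (D i).m e) (r : ℕ)
    (hr : ∀ i, Nat.Coprime (D i).m r) (n : ℕ) (j : ℤ) :
    part (Fintype.card κ) (Z n) (fun i => (C i).total) r j =
      (part (Fintype.card κ) (Z n) (fun i => (C i).H) r j).map (pullback (Z n) C) ∧
    ((Z n).Ψ.IsSemisimple →
      IsSemisimpleAt (Fintype.card κ) (Z n) (fun i => (C i).total) r j) := by
  classical
  have hmain : ∀ i, (C i).W.Ψ.IsSemisimple ∧
      ∀ (k : Type) [Field k] [CharP k p] (θ : (integralClosure ℤ E).toSubring →+* k) (α : E)
        (w : (C i).W.V), w ≠ 0 → (C i).W.Ψ w = α • w → ∃ x : (integralClosure ℤ E).toSubring,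
          (x : E) = α ∧ θ x ^ (D i).M = 1 ∧ θ x ^ (D i).K ≠ 1 := by
    intro i
    have hirr := (hadm i).irreducible
    have hdeg := (hadm i).degree
    have hdim := (hC i).dimension
    unfold Datum.M at hdeg hdim ⊢
    unfold Datum.K at hdim ⊢
    rw [composite_eq] at hirr hdeg
    simp only [composite_eq] at hdim ⊢
    refine TH943.TP.eig_main hp hs κ hz (D i).h (D i).f (b := (D i).b) (c := (D i).c)
      ?_ ?_ hirr hdeg (C i).W.Ψ (C i).g (hC i).commute (hC i).order (hC i).invariants ?_ hdim
    · intro l h0
      exact (hadm i).exponents l (by rw [h0]; exact dvd_zero p)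
    · intro h0
      exact (hadm i).exponent (by rw [h0]; exact dvd_zero p)
    · intro L _ _ _ l
      have h1 := (hC i).lefschetz L l
      have h2 : (-1) ^ ((D i).n + 2) *
          LinearMap.trace E (C i).W.V ((C i).W.Ψ ^ Module.finrank κ L * (C i).g ^ l) =
          (p : E) ^ s * (fixCount L (D i).h (D i).f (D i).b (D i).c (p ^ s) z l : E) -
            (openCount L (D i).h (D i).f (D i).b (D i).c : E) := by
        unfold Datum.dim at h1
        linear_combination h1
      exact h2
  have hM : ∀ i, (D i).M = (D i).K * (D i).m := by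
    intro i
    unfold Datum.M Datum.K Datum.m
    rw [composite_eq, composite_eq, Pool.Agent.TH943.IP.cmp_succ, natDegree_comp]
  have hM0 : ∀ i, 0 < (D i).M := fun i => Nat.pos_of_ne_zero fun h0 =>
    (hadm i).degree (by rw [h0]; exact dvd_zero p)
  have hcop' : ∀ i j, i ≠ j → Nat.Coprime (D i).m ((D j).K * (D j).m) := by
    intro i j hij
    have h2 := hcop i j hij
    rw [hM j] at h2
    exact h2
  have hq1 : 1 < Fintype.card κ := Fintype.one_lt_card
  have hq : ∀ (k : Type) [Field k] [CharP k p], ((Fintype.card κ : ℕ) : k) = 1 :=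
    fun k _ _ => Pool.Agent.W528.HS.card_eq_one hp hs hz k
  have heigL : ∀ i, ∀ (k : Type) [Field k] [CharP k p]
      (θ : (integralClosure ℤ E).toSubring →+* k) (α : E) (w : (C i).H.V), w ≠ 0 →
        (C i).H.Ψ w = α • w → ∃ x : (integralClosure ℤ E).toSubring,
          (x : E) = α ∧ θ x ^ ((D i).K * (D i).m) = 1 := by
    intro i k _ _ θ α w hw hα
    rw [← hM i]
    exact TH943.TP.eig_linear hq (C i).H.Ψ (hM0 i) (hC i).linear k θ α w hw hα
  have heig : ∀ i, ∀ (k : Type) [Field k] [CharP k p]
      (θ : (integralClosure ℤ E).toSubring →+* k) (α : E) (w : (C i).W.V), w ≠ 0 →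
        (C i).W.Ψ w = α • w → ∃ x : (integralClosure ℤ E).toSubring,
          (x : E) = α ∧ θ x ^ ((D i).K * (D i).m) = 1 ∧ θ x ^ (D i).K ≠ 1 := by
    intro i k _ _ θ α w hw hα
    obtain ⟨x, hx1, hx2, hx3⟩ := (hmain i).2 k θ α w hw hα
    refine ⟨x, hx1, ?_, hx3⟩
    rw [← hM i]
    exact hx2
  have hΨ : ∀ (k : Type) [Field k] [CharP k p] (θ : (integralClosure ℤ E).toSubring →+* k)
      (β : E) (w : (Z n).V), w ≠ 0 → (Z n).Ψ w = β • w →
        ∃ x : (integralClosure ℤ E).toSubring, (x : E) = β ∧ θ x ^ e = 1 := by
    intro k _ _ θ β w hw hβ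
    obtain ⟨x, hx1, hx2⟩ := hZ n β w hw hβ
    exact ⟨x, hx1, hx2 k θ⟩
  have hspan := gnT_span C (fun i => (hC i).semisimple) (fun i => (hmain i).1)
  refine ⟨?_, fun hss x hx => ?_⟩
  · exact TH943.TP.open_main hp hq1 hq (fun i => (D i).K) (fun i => (D i).m) hcop' (E := E)
      (L := fun i => (C i).H.V) (W := fun i => (C i).W.V) (fun i => (C i).H.Ψ)
      (fun i => (C i).W.Ψ) heigL heig (factorsFrobenius fun i => (C i).total)
      (factorsFrobenius fun i => (C i).H) (factorsPullback C)
      (gnT C) (gnT_val C) hspan (bsT C) (bsT_val C) (bsT_span C fun i => (hC i).semisimple)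
      (pull_bsT C) (Z n).Ψ hΨ he hr j
  · exact TH943.TP.tensor_ss (Z n).Ψ hss (factorsFrobenius fun i => (C i).total) (gnT C) _
      (gnT_val C) hspan r _ x hx

end Pool.Agent.Results.MP_81b968_ag.OpenCyclicCoverings
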